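import Pool.Agent.Helper13.PLF.Defs
import Pool.Agent.Helper45.PD.YLa
import Pool.Agent.Helper29.PD.Geo
import Pool.Agent.Helper79.TW.KGb

/-!
# Project PL, block CHN (chain): between two levels `N₀ < N`, `N` an `ℓ`-level, there is a level `N' < N` such that
the group of `N / N'` is central in the group of `N / L0`, of exponent `ℓ`
-/

set_option autoImplicit false

namespace Pool.Agent.PRL

open VC IntermediateField NumberField IsDedekindDomain Pool.Agent.SC
open Pool.Agent.L (L0 MM)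
open Pool.Agent.LN (Geo Act GoodCurve)
open Pool.Agent.M (Moves OverPl inL0)
open Pool.Agent.ML (HasMu BPl)
open Pool.Agent.TOW (Au AuE)
open Pool.Agent.PDL (HypL YL PoleAt IsRatBr IsBr numBr Third KB2)

noncomputable section

namespace CHN17

section fixed

variable {G : Type*} [Group G] {l : ℕ} [hl : Fact l.Prime]

/-- Fixed points of an `l`-group of automorphisms: a nontrivial element of order `l` of the stable subgroup `H`. -/
private theorem exists_fixed17 {A : Type*} [Group A] (φ : A →* MulAut G) (hA : IsPGroup l φ.range) (H : Subgroup G)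
    [Finite H] (hH : IsPGroup l H) (h1 : H ≠ ⊥) (hst : ∀ a : A, ∀ g ∈ H, φ a g ∈ H) :
    ∃ z ∈ H, z ≠ 1 ∧ z ^ l = 1 ∧ ∀ a : A, φ a z = z := by
  let act : MulAction φ.range H :=
    { smul := fun β x => ⟨β.1 x.1, by
        obtain ⟨a, ha⟩ := β.2
        rw [← ha]
        exact hst a x.1 x.2⟩
      one_smul := fun x => rfl
      mul_smul := fun β γ x => rfl }
  have hdvd : l ∣ Nat.card H := by
    have hnt : Nontrivial H := (Subgroup.nontrivial_iff_ne_bot H).mpr h1
    obtain ⟨n, hn⟩ := IsPGroup.iff_card.mp hH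
    rcases Nat.eq_zero_or_pos n with rfl | hn0
    · rw [pow_zero] at hn
      have := Finite.one_lt_card (α := H)
      omega
    · rw [hn]
      exact dvd_pow_self l hn0.ne'
  have hone : (1 : H) ∈ MulAction.fixedPoints φ.range H := by
    intro β
    apply Subtype.ext
    change β.1 1 = 1
    exact map_one _
  obtain ⟨b, hb, hb1⟩ := hA.exists_fixed_point_of_prime_dvd_card_of_fixed_point H hdvd hone
  -- a power of `b` has order `l`
  obtain ⟨n, hn⟩ := hH b
  obtain ⟨m, hm, hm1⟩ : ∃ m : ℕ, b ^ l ^ m ≠ 1 ∧ b ^ l ^ (m + 1) = 1 := by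
    by_contra hcon
    push Not at hcon
    have : ∀ m : ℕ, b ^ l ^ m ≠ 1 := by
      intro m
      induction m with
      | zero => rw [pow_zero, pow_one]; exact hb1.symm
      | succ m ih => exact hcon m ih
    exact this n hn
  refine ⟨((b ^ l ^ m : H) : G), (b ^ l ^ m : H).2, ?_, ?_, ?_⟩
  · intro h0
    exact hm (Subtype.ext h0)
  · rw [← Subgroup.coe_pow, ← pow_mul, ← pow_succ, hm1]
    rfl
  · intro a
    have h2 := congrArg Subtype.val (hb ⟨φ a, a, rfl⟩)
    change φ a b.1 = b.1 at h2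
    rw [Subgroup.coe_pow, map_pow, h2]

end fixed

section grp

variable {E K0 U : Type} [Field E] [Field K0] [Field U] [Algebra E U] [Algebra K0 U]
  {N : IntermediateField E U}

theorem Lvl.l0_le17 (hN : TW.Lvl E K0 N) : L0 E K0 (U := U) ≤ N := by
  refine IntermediateField.adjoin_le_iff.2 ?_
  rintro _ ⟨x, rfl⟩
  exact hN.le x

/-- the level as an extension of `L0` -/
def Nh (hN : TW.Lvl E K0 N) : IntermediateField (L0 E K0 (U := U)) U :=
  IntermediateField.extendScalars (Lvl.l0_le17 hN)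

theorem mem_Nh {hN : TW.Lvl E K0 N} {x : U} : x ∈ Nh hN ↔ x ∈ N := Iff.rfl

/-- the group of the level over `L0` -/
abbrev Gm (hN : TW.Lvl E K0 N) : Type := Nh hN ≃ₐ[L0 E K0 (U := U)] Nh hN

variable (E K0 U) in
/-- the group of the automorphisms over `K0` which preserve `E` -/
def AuG : Subgroup (U ≃+* U) where
  carrier := {T | Au E K0 T ∧ Au E K0 T⁻¹}
  mul_mem' := fun {a b} ha hb => ⟨Pool.Agent.TOW.Au.mul79 ha.1 hb.1, by
    rw [mul_inv_rev]
    exact Pool.Agent.TOW.Au.mul79 hb.2 ha.2⟩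
  one_mem' := ⟨⟨fun _ => rfl, fun e => ⟨e, rfl⟩⟩, by
    rw [inv_one]
    exact ⟨fun _ => rfl, fun e => ⟨e, rfl⟩⟩⟩
  inv_mem' := fun {a} ha => ⟨ha.2, by rw [inv_inv]; exact ha.1⟩

/-- the automorphism of the level -/
def tN (hN : TW.Lvl E K0 N) (T : AuG E K0 U) : Nh hN ≃+* Nh hN where
  toFun x := ⟨(T : U ≃+* U) x, hN.stab _ T.2.1.fixK T.2.1.presE x x.2⟩
  invFun x := ⟨(T : U ≃+* U)⁻¹ x, hN.stab _ T.2.2.fixK T.2.2.presE x x.2⟩
  left_inv x := Subtype.ext ((T : U ≃+* U).symm_apply_apply x)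
  right_inv x := Subtype.ext ((T : U ≃+* U).apply_symm_apply x)
  map_mul' _ _ := Subtype.ext (map_mul (T : U ≃+* U) _ _)
  map_add' _ _ := Subtype.ext (map_add (T : U ≃+* U) _ _)

/-- a finite extension -/
theorem fin17 (hN : TW.Lvl E K0 N) (hL : IsFunctionField E (L0 E K0 (U := U))) :
    FiniteDimensional (L0 E K0 (U := U)) (Nh hN) := by
  classical
  obtain ⟨t, ht, -⟩ := hL
  let t' : N := ⟨t, Lvl.l0_le17 hN t.2⟩
  have ht' : Transcendental E t' := by
    intro h
    apply ht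
    have h1 : IsAlgebraic E (algebraMap N U t') :=
      (isAlgebraic_algebraMap_iff (algebraMap N U).injective).2 h
    exact (isAlgebraic_algebraMap_iff (algebraMap (L0 E K0 (U := U)) U).injective).1 h1
  have hfin := hN.ff.finiteDimensional ht'
  obtain ⟨s, hs⟩ := hfin.fg_top
  let f : N → Nh hN := fun x => ⟨x, x.2⟩
  refine ⟨⟨s.image f, ?_⟩⟩
  rw [eq_top_iff]
  rintro x -
  have hx : (⟨x, x.2⟩ : N) ∈ Submodule.span (IntermediateField.adjoin E {t'}) (s : Set N) := by
    rw [hs]; trivial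
  have key : ∀ y : N, y ∈ Submodule.span (IntermediateField.adjoin E {t'}) (s : Set N) →
      f y ∈ Submodule.span (L0 E K0 (U := U)) ((s.image f : Finset (Nh hN)) : Set (Nh hN)) := by
    intro y hy
    induction hy using Submodule.span_induction with
    | mem y hy => exact Submodule.subset_span (by
        rw [Finset.coe_image]; exact ⟨y, hy, rfl⟩)
    | zero =>
      have : f 0 = 0 := Subtype.ext rfl
      rw [this]
      exact Submodule.zero_mem _
    | add a b _ _ ha hb =>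
      have : f (a + b) = f a + f b := Subtype.ext rfl
      rw [this]
      exact Submodule.add_mem _ ha hb
    | smul c a _ ha =>
      have hc : ((c : N) : U) ∈ L0 E K0 (U := U) := by
        have h2 : ∀ z : N, z ∈ IntermediateField.adjoin E {t'} → (z : U) ∈ L0 E K0 (U := U) := by
          intro z hz
          induction hz using IntermediateField.adjoin_induction with
          | mem x hx =>
            rw [Set.mem_singleton_iff.1 hx]
            exact t.2
          | algebraMap x => exact (L0 E K0 (U := U)).algebraMap_mem x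
          | add x y _ _ hx hy => exact add_mem hx hy
          | inv x _ hx => exact inv_mem hx
          | mul x y _ _ hx hy => exact mul_mem hx hy
        exact h2 c c.2
      have : f (c • a) = (⟨((c : N) : U), hc⟩ : L0 E K0 (U := U)) • f a := Subtype.ext rfl
      rw [this]
      exact Submodule.smul_mem _ _ ha
  exact key _ hx

/-- the level is normal over `L0` -/
theorem nor17 (hN : TW.Lvl E K0 N) [Normal (L0 E K0 (U := U)) U] :
    Normal (L0 E K0 (U := U)) (Nh hN) := by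
  rw [IntermediateField.normal_iff_forall_map_le']
  rintro σ _ ⟨x, hx, rfl⟩
  have hσ : ∀ z ∈ L0 E K0 (U := U), σ z = z := fun z hz => σ.commutes ⟨z, hz⟩
  exact hN.stab σ.toRingEquiv (fun y => hσ _ (Pool.Agent.TOW.inL59 y))
    (fun e => ⟨e, hσ _ ((L0 E K0 (U := U)).algebraMap_mem e)⟩) x hx

/-- an automorphism over `L0` as an algebra automorphism -/
def toAl {a : U ≃+* U} (ha : AuE E K0 a) : U ≃ₐ[L0 E K0 (U := U)] U :=
  AlgEquiv.ofRingEquiv (f := a) fun x => Pool.Agent.TOW.AuE.onL0 ha x x.2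

theorem toAl_apply {a : U ≃+* U} (ha : AuE E K0 a) (x : U) : toAl ha x = a x := rfl

/-- the restriction of an automorphism over `L0` to the level -/
def res17 (hN : TW.Lvl E K0 N) {a : U ≃+* U} (ha : AuE E K0 a) : Gm hN :=
  AlgEquiv.ofRingEquiv (f := tN hN ⟨a, Pool.Agent.TOW.AuE.au79 ha,
    Pool.Agent.TOW.AuE.au79 (Pool.Agent.TOW.AuE.inv79 ha)⟩) fun x =>
      Subtype.ext (Pool.Agent.TOW.AuE.onL0 ha x x.2)

theorem res17_apply (hN : TW.Lvl E K0 N) {a : U ≃+* U} (ha : AuE E K0 a) (x : Nh hN) :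
    ((res17 hN ha x : Nh hN) : U) = a x := rfl

/-- the elements of the group of the level come from automorphisms over `L0` -/
theorem exists_lift17 (hN : TW.Lvl E K0 N) [Normal (L0 E K0 (U := U)) U] (γ : Gm hN) :
    ∃ (a : U ≃+* U) (ha : AuE E K0 a), res17 hN ha = γ := by
  have := nor17 hN
  obtain ⟨σ, hσ⟩ := AlgEquiv.restrictNormalHom_surjective (F := L0 E K0 (U := U)) (K₁ := Nh hN) U γ
  have hs : ∀ z ∈ L0 E K0 (U := U), σ z = z := fun z hz => σ.commutes ⟨z, hz⟩
  have ha : AuE E K0 σ.toRingEquiv := Pool.Agent.TOW.auE59 hs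
  refine ⟨σ.toRingEquiv, ha, ?_⟩
  ext x
  rw [← hσ, res17_apply]
  exact (AlgEquiv.restrictNormal_commutes σ (Nh hN) x).symm

end grp

section chain

variable {k K0 E U : Type} [Field k] [Field K0] [Field E] [Field U] [Algebra k K0]
  [Algebra k E] [Algebra E U] [Algebra K0 U] [Algebra k U] [IsScalarTower k E U]
  [IsScalarTower k K0 U] {N₀ N : IntermediateField E U} {ℓ : ℕ}

/-- the automorphisms over `L0`, trivial on `N₀`, of exponent `ℓ` and central on `N` -/
structure Ce (E K0 : Type) {U : Type} [Field E] [Field K0] [Field U] [Algebra E U] [Algebra K0 U]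
    (ℓ : ℕ) (N₀ N : IntermediateField E U) (a : U ≃+* U) : Prop where
  aue : AuE E K0 a
  triv : ∀ y ∈ N₀, a y = y
  expo : ∀ y ∈ N, (a ^ ℓ) y = y
  cen : ∀ b : U ≃+* U, AuE E K0 b → ∀ y ∈ N, a (b y) = b (a y)

omit [Field k] [Algebra k K0] [Algebra k E] [Algebra k U] [IsScalarTower k E U] [IsScalarTower k K0 U] in
theorem pow_mem_N17 (hN : TW.Lvl E K0 N) {T : U ≃+* U} (hT : Au E K0 T) (n : ℕ) :
    ∀ y ∈ N, (T ^ n) y ∈ N := by
  induction n with
  | zero => intro y hy; exact hy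
  | succ n ih =>
    intro y hy
    rw [pow_succ]
    exact ih _ (hN.stab T hT.fixK hT.presE y hy)

theorem au_inv17 [Algebra.IsAlgebraic k E] {T : U ≃+* U} (h : Au E K0 T) : Au E K0 T⁻¹ := by
  obtain ⟨g, hg⟩ := Pool.Agent.TOW.Au.exists_gal79 (k := k) h
  refine ⟨fun x => ?_, fun e => ⟨g.symm e, ?_⟩⟩
  · change T.symm _ = _
    rw [RingEquiv.symm_apply_eq, h.fixK]
  · change T.symm _ = _
    rw [RingEquiv.symm_apply_eq, hg, AlgEquiv.apply_symm_apply]

/-- conjugation -/
theorem Ce.conj17 [Algebra.IsAlgebraic k E] (hN₀ : TW.Lvl E K0 N₀) (hN : TW.Lvl E K0 N) {T : U ≃+* U}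
    (hT : Au E K0 T) {a : U ≃+* U} (ha : Ce E K0 ℓ N₀ N a) : Ce E K0 ℓ N₀ N (T⁻¹ * a * T) := by
  have hT' : Au E K0 T⁻¹ := au_inv17 (k := k) hT
  have e1 : ∀ x : U, T⁻¹ (T x) = x := fun x => T.symm_apply_apply x
  have e2 : ∀ x : U, T (T⁻¹ x) = x := fun x => T.apply_symm_apply x
  have hconj : ∀ (S : U ≃+* U), Au E K0 S → Au E K0 S⁻¹ → ∀ b : U ≃+* U, AuE E K0 b →
      AuE E K0 (S⁻¹ * b * S) := by
    intro S hS hS' b hb
    refine ⟨fun x => ?_, fun e => ?_⟩
    · change S⁻¹ (b (S _)) = _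
      rw [hS.fixK, hb.fixK, hS'.fixK]
    · change S⁻¹ (b (S _)) = _
      obtain ⟨e', he'⟩ := hS.presE e
      rw [he', hb.fixE, ← he']
      exact S.symm_apply_apply _
  refine ⟨hconj T hT hT' a ha.aue, fun y hy => ?_, fun y hy => ?_, fun b hb y hy => ?_⟩
  · change T⁻¹ (a (T y)) = y
    rw [ha.triv _ (hN₀.stab T hT.fixK hT.presE y hy), e1]
  · have h1 : (T⁻¹ * a * T) ^ ℓ = T⁻¹ * a ^ ℓ * T := by
      have := conj_pow (a := T⁻¹) (b := a) (i := ℓ)
      rw [inv_inv] at this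
      exact this
    rw [h1]
    change T⁻¹ ((a ^ ℓ) (T y)) = y
    rw [ha.expo _ (hN.stab T hT.fixK hT.presE y hy), e1]
  · change T⁻¹ (a (T (b y))) = b (T⁻¹ (a (T y)))
    have hb' : AuE E K0 (T * b * T⁻¹) := by
      have := hconj T⁻¹ hT' (by rw [inv_inv]; exact hT) b hb
      rwa [inv_inv] at this
    have h1 := ha.cen _ hb' (T y) (hN.stab T hT.fixK hT.presE y hy)
    change a (T (b (T⁻¹ (T y)))) = T (b (T⁻¹ (a (T y)))) at h1
    rw [e1] at h1
    rw [h1, e1]

/-- the fixed field of the central automorphisms -/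
def N1 (E K0 : Type) {U : Type} [Field E] [Field K0] [Field U] [Algebra E U] [Algebra K0 U]
    (ℓ : ℕ) (N₀ N : IntermediateField E U) : IntermediateField E U where
  carrier := {x | x ∈ N ∧ ∀ a : U ≃+* U, Ce E K0 ℓ N₀ N a → a x = x}
  mul_mem' := fun {x y} hx hy => ⟨mul_mem hx.1 hy.1, fun a ha => by
    rw [map_mul, hx.2 a ha, hy.2 a ha]⟩
  add_mem' := fun {x y} hx hy => ⟨add_mem hx.1 hy.1, fun a ha => by
    rw [map_add, hx.2 a ha, hy.2 a ha]⟩
  algebraMap_mem' := fun e => ⟨N.algebraMap_mem e, fun a ha => ha.aue.fixE e⟩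
  inv_mem' := fun x hx => ⟨inv_mem hx.1, fun a ha => by rw [map_inv₀, hx.2 a ha]⟩

/-- CHAIN -/
theorem chain17 [Algebra.IsAlgebraic k E] [IsGalois (L0 E K0 (U := U)) U] (hℓ : ℓ.Prime)
    (hff : IsFunctionField E (L0 E K0 (U := U))) (hN₀ : TW.Lvl E K0 N₀) (hN : TW.Lvl E K0 N) (h01 : N₀ ≤ N)
    (hne : N₀ ≠ N) (hPL : IsPL E K0 ℓ N) :
    ∃ N' : IntermediateField E U, TW.Lvl E K0 N' ∧ N₀ ≤ N' ∧ N' ≤ N ∧ N' ≠ N ∧
      ∀ a : U ≃+* U, AuE E K0 a → (∀ y ∈ N', a y = y) →
        (∀ y ∈ N, (a ^ ℓ) y = y) ∧ ∀ b : U ≃+* U, AuE E K0 b → ∀ y ∈ N, a (b y) = b (a y) := by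
  classical
  have : Fact ℓ.Prime := ⟨hℓ⟩
  have hnL : Normal (L0 E K0 (U := U)) U := inferInstance
  have hfd : FiniteDimensional (L0 E K0 (U := U)) (Nh hN) := fin17 hN hff
  have hnN : Normal (L0 E K0 (U := U)) (Nh hN) := nor17 hN
  have hsep : Algebra.IsSeparable (L0 E K0 (U := U)) (Nh hN) :=
    Algebra.isSeparable_tower_bot_of_isSeparable (L0 E K0 (U := U)) (Nh hN) U
  have hgal : IsGalois (L0 E K0 (U := U)) (Nh hN) := ⟨⟩
  -- the restriction
  have hmul : ∀ {a b : U ≃+* U} (ha : AuE E K0 a) (hb : AuE E K0 b) (x : Nh hN),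
      (((res17 hN ha * res17 hN hb) x : Nh hN) : U) = a (b x) := fun ha hb x => rfl
  have hpow : ∀ {a : U ≃+* U} (ha : AuE E K0 a) (n : ℕ) (x : Nh hN),
      ((((res17 hN ha) ^ n) x : Nh hN) : U) = (a ^ n) x := by
    intro a ha n
    induction n with
    | zero => intro x; rfl
    | succ n ih =>
      intro x
      rw [pow_succ, pow_succ, AlgEquiv.mul_apply, ih]
      rfl
  -- the group of the level is an `ℓ`-group
  have hΓ : IsPGroup ℓ (Gm hN) := by
    intro γ
    obtain ⟨a, ha, rfl⟩ := exists_lift17 hN γ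
    obtain ⟨j, hj⟩ := hPL a ha
    refine ⟨j, ?_⟩
    ext x
    rw [hpow]
    exact hj x x.2
  -- the group of `N / N₀`
  let N0' : IntermediateField (L0 E K0 (U := U)) (Nh hN) :=
    { carrier := {x | (x : U) ∈ N₀}
      mul_mem' := fun {x y} hx hy => mul_mem (S := IntermediateField E U) (s := N₀) hx hy
      add_mem' := fun {x y} hx hy => add_mem (S := IntermediateField E U) (s := N₀) hx hy
      algebraMap_mem' := fun x => Lvl.l0_le17 hN₀ x.2
      inv_mem' := fun x hx => inv_mem (S := IntermediateField E U) (s := N₀) hx }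
  have hH : IntermediateField.fixingSubgroup N0' ≠ ⊥ := by
    intro h0
    apply hne
    refine le_antisymm h01 fun x hx => ?_
    have h1 := IsGalois.fixedField_fixingSubgroup N0'
    rw [h0, IntermediateField.fixedField_bot] at h1
    have h2 : (⟨x, hx⟩ : Nh hN) ∈ N0' := by
      rw [← h1]
      exact IntermediateField.mem_top
    exact h2
  have hst : ∀ γ : Gm hN, ∀ δ ∈ IntermediateField.fixingSubgroup N0',
      MulAut.conj γ δ ∈ IntermediateField.fixingSubgroup N0' := by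
    intro γ δ hδ
    rw [IntermediateField.mem_fixingSubgroup_iff] at hδ ⊢
    intro x hx
    obtain ⟨a, ha, hγ⟩ := exists_lift17 hN γ⁻¹
    have h1 : γ⁻¹ x ∈ N0' := by
      change ((γ⁻¹ x : Nh hN) : U) ∈ N₀
      rw [← hγ, res17_apply]
      exact hN₀.stab a ha.fixK (fun e => ⟨e, ha.fixE e⟩) _ hx
    change γ (δ (γ⁻¹ x)) = x
    rw [hδ _ h1]
    exact γ.apply_symm_apply x
  obtain ⟨z, hzH, hz1, hzl, hzc⟩ := exists_fixed17 (MulAut.conj : Gm hN →* MulAut (Gm hN))
    (hΓ.of_surjective _ (MonoidHom.rangeRestrict_surjective _)) _ (hΓ.to_subgroup _) hH hst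
  have hzc' : ∀ γ : Gm hN, γ * z = z * γ := by
    intro γ
    have h1 := hzc γ
    rw [MulAut.conj_apply] at h1
    exact mul_inv_eq_iff_eq_mul.1 h1
  rw [IntermediateField.mem_fixingSubgroup_iff] at hzH
  -- the characterisation
  have hCe : ∀ {a : U ≃+* U} (ha : AuE E K0 a), Ce E K0 ℓ N₀ N a ↔
      ((∀ x ∈ N0', res17 hN ha x = x) ∧ (res17 hN ha) ^ ℓ = 1 ∧
        ∀ γ : Gm hN, res17 hN ha * γ = γ * res17 hN ha) := by
    intro a ha
    constructor
    · intro h
      refine ⟨fun x hx => Subtype.ext (h.triv x hx), ?_, fun γ => ?_⟩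
      · ext x
        rw [hpow]
        exact h.expo x x.2
      · obtain ⟨b, hb, rfl⟩ := exists_lift17 hN γ
        ext x
        rw [hmul, hmul]
        exact h.cen b hb x x.2
    · rintro ⟨h1, h2, h3⟩
      refine ⟨ha, fun y hy => ?_, fun y hy => ?_, fun b hb y hy => ?_⟩
      · exact congrArg Subtype.val (h1 ⟨y, h01 hy⟩ hy)
      · have h4 := hpow ha ℓ ⟨y, hy⟩
        rw [h2] at h4
        exact h4.symm
      · have h4 := congrArg (fun γ : Gm hN => ((γ ⟨y, hy⟩ : Nh hN) : U)) (h3 (res17 hN hb))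
        exact h4
  refine ⟨N1 E K0 ℓ N₀ N, ⟨?_, ?_, ?_⟩, ?_, fun x hx => hx.1, ?_, ?_⟩
  · refine Pool.Agent.TOW.ff_le59 (L := L0 E K0 (U := U)) (N' := N) ?_ (fun x hx => hx.1) hN.ff
    intro x hx
    exact ⟨Lvl.l0_le17 hN hx, fun a ha => ha.triv x (Lvl.l0_le17 hN₀ hx)⟩
  · intro x
    exact ⟨hN.le x, fun a ha => ha.aue.fixK x⟩
  · intro T h1 h2 x hx
    have hT : Au E K0 T := ⟨h1, h2⟩
    refine ⟨hN.stab T h1 h2 x hx.1, fun a ha => ?_⟩
    have h3 := hx.2 _ (Ce.conj17 (k := k) hN₀ hN hT ha)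
    change T⁻¹ (a (T x)) = x at h3
    have h4 := congrArg T h3
    have e2 : ∀ x : U, T (T⁻¹ x) = x := fun x => T.apply_symm_apply x
    rwa [e2] at h4
  · intro x hx
    exact ⟨h01 hx, fun a ha => ha.triv x hx⟩
  · intro h0
    apply hz1
    obtain ⟨a, ha, haz⟩ := exists_lift17 hN z
    have h1 : Ce E K0 ℓ N₀ N a := (hCe ha).2 (by
      rw [haz]
      exact ⟨hzH, hzl, fun γ => (hzc' γ).symm⟩)
    ext x
    have h2 : (x : U) ∈ N1 E K0 ℓ N₀ N := by
      rw [h0]; exact x.2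
    have h3 := h2.2 a h1
    rw [← haz, res17_apply]
    exact h3
  · intro a ha hfix
    -- the group
    let Z : Subgroup (Gm hN) :=
      { carrier := {γ | (∀ x ∈ N0', γ x = x) ∧ γ ^ ℓ = 1 ∧ ∀ δ : Gm hN, γ * δ = δ * γ}
        one_mem' := ⟨fun x _ => rfl, one_pow _, fun δ => by rw [one_mul, mul_one]⟩
        mul_mem' := fun {γ δ} hγ hδ => ⟨fun x hx => by
            rw [AlgEquiv.mul_apply, hδ.1 x hx, hγ.1 x hx], by
            have hc : Commute γ δ := hγ.2.2 δ
            rw [hc.mul_pow, hγ.2.1, hδ.2.1, one_mul], fun ε => by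
            rw [mul_assoc, hδ.2.2 ε, ← mul_assoc, hγ.2.2 ε, mul_assoc]⟩
        inv_mem' := fun {γ} hγ => ⟨fun x hx => by
            change γ.symm x = x
            rw [AlgEquiv.symm_apply_eq, hγ.1 x hx], by rw [inv_pow, hγ.2.1, inv_one], fun δ => by
            rw [inv_mul_eq_iff_eq_mul, ← mul_assoc, hγ.2.2 δ, mul_assoc, mul_inv_cancel, mul_one]⟩ }
    have h1 : res17 hN ha ∈ IntermediateField.fixingSubgroup (IntermediateField.fixedField Z) := by
      rw [IntermediateField.mem_fixingSubgroup_iff]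
      intro x hx
      apply Subtype.ext
      refine hfix x ⟨x.2, fun b hb => ?_⟩
      rw [IntermediateField.mem_fixedField_iff] at hx
      have h2 := hx (res17 hN hb.aue) ((hCe hb.aue).1 hb)
      exact congrArg Subtype.val h2
    rw [IntermediateField.fixingSubgroup_fixedField] at h1
    have h2 := (hCe ha).2 h1
    exact ⟨h2.expo, h2.cen⟩

end chain

end CHN17

open CHN17 in
/-- BLOCK CHN. -/
theorem cHN : StmtCHN := by
  intro k K0 E U _ _ _ _ _ _ _ _ _ _ _ _ ℓ h r hℓ G N₁ N hN₁ _ hN hle hne hPL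
  have hgal : IsGalois (L0 E K0 (U := U)) U := Pool.Agent.PD.galP29 G
  have halg : Algebra.IsAlgebraic k E := G.algE
  obtain ⟨N', h1, h2, h3, h4, h5⟩ := chain17 (k := k) hℓ G.ff hN₁ hN hle hne hPL
  exact ⟨N', h1, h2, h4, h3, fun T a hT ha hz z hzN => ((h5 a ha hz).2 T hT z hzN).symm,
    fun a ha hz => (h5 a ha hz).1⟩

end

end Pool.Agent.PRL
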